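import Pool.Agent.H88.KN.Targets

namespace Pool.Agent.H33.KN
open Finset Pool.Agent.H88.KN

lemma ND_sum {V : Type} [Fintype V] [DecidableEq V] (ρ : V → ℕ) (hinj : Function.Injective ρ)
    (hlt : ∀ v, ρ v < Fintype.card V) (g : ℕ → ℝ) :
    ∑ v, g (ρ v) = ∑ i ∈ range (Fintype.card V), g i := by
  have himg : univ.image ρ = range (Fintype.card V) := by
    refine eq_of_subset_of_card_le ?_ ?_
    · intro i hi
      obtain ⟨v, -, rfl⟩ := mem_image.1 hi
      exact mem_range.2 (hlt v)
    · rw [card_range, card_image_of_injective _ hinj, card_univ]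
  rw [← himg, sum_image fun a _ b _ h => hinj h]

lemma ND_hh_even {m i : ℕ} : (i < m → hh (m + m) i = 1) ∧ hh (m + m) (m + i) = 0 := by
  unfold hh
  constructor
  · intro h
    rw [if_pos (by omega), if_pos (by omega)]; norm_num
  · rw [if_neg (by omega), if_neg (by omega)]; norm_num

lemma ND_hh_odd {m i : ℕ} : (i < m → hh (m + 1 + m) i = 1) ∧ hh (m + 1 + m) m = 1 / 2 ∧
    hh (m + 1 + m) (m + 1 + i) = 0 := by
  unfold hh
  refine ⟨?_, ?_, ?_⟩
  · intro h
    rw [if_pos (by omega), if_pos (by omega)]; norm_num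
  · rw [if_neg (by omega), if_pos (by omega)]; norm_num
  · rw [if_neg (by omega), if_neg (by omega)]; norm_num

lemma ND_range (n : ℕ) : ∑ i ∈ range n, hh n i = (n : ℝ) / 2 ∧
    ∑ i ∈ range n, hh n i * (1 - hh n i) = (if n % 2 = 0 then 0 else 1 / 4) := by
  rcases Nat.even_or_odd' n with ⟨m, hm | hm⟩
  · obtain rfl : n = m + m := by omega
    have h1 : ∑ i ∈ range m, hh (m + m) i = m := by
      rw [sum_congr rfl fun i hi => (ND_hh_even (m := m) (i := i)).1 (mem_range.1 hi)]
      simp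
    have h2 : ∑ i ∈ range m, hh (m + m) (m + i) = 0 :=
      sum_eq_zero fun i _ => (ND_hh_even (m := m) (i := i)).2
    have h3 : ∑ i ∈ range m, hh (m + m) i * (1 - hh (m + m) i) = 0 :=
      sum_eq_zero fun i hi => by rw [(ND_hh_even (m := m) (i := i)).1 (mem_range.1 hi)]; norm_num
    have h4 : ∑ i ∈ range m, hh (m + m) (m + i) * (1 - hh (m + m) (m + i)) = 0 :=
      sum_eq_zero fun i _ => by rw [(ND_hh_even (m := m) (i := i)).2]; norm_num
    rw [sum_range_add, sum_range_add, h1, h2, h3, h4, if_pos (by omega)]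
    push_cast
    constructor <;> ring
  · obtain rfl : n = m + 1 + m := by omega
    have h1 : ∑ i ∈ range m, hh (m + 1 + m) i = m := by
      rw [sum_congr rfl fun i hi => (ND_hh_odd (m := m) (i := i)).1 (mem_range.1 hi)]
      simp
    have h2 : ∑ i ∈ range m, hh (m + 1 + m) (m + 1 + i) = 0 :=
      sum_eq_zero fun i _ => (ND_hh_odd (m := m) (i := i)).2.2
    have h3 : ∑ i ∈ range m, hh (m + 1 + m) i * (1 - hh (m + 1 + m) i) = 0 :=
      sum_eq_zero fun i hi => by rw [(ND_hh_odd (m := m) (i := i)).1 (mem_range.1 hi)]; norm_num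
    have h4 : ∑ i ∈ range m, hh (m + 1 + m) (m + 1 + i) * (1 - hh (m + 1 + m) (m + 1 + i)) = 0 :=
      sum_eq_zero fun i _ => by rw [(ND_hh_odd (m := m) (i := i)).2.2]; norm_num
    rw [sum_range_add _ (m + 1) m, sum_range_succ _ m, sum_range_add _ (m + 1) m,
      sum_range_succ _ m, h1, h2, h3, h4, (ND_hh_odd (m := m) (i := 0)).2.1, if_neg (by omega)]
    push_cast
    constructor <;> ring

/-- sums of the profile -/
theorem pf_ND : T_ND := by
  intro V _ _ ρ hinj hlt
  rw [ND_sum ρ hinj hlt (fun i => hh (Fintype.card V) i),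
    ND_sum ρ hinj hlt (fun i => hh (Fintype.card V) i * (1 - hh (Fintype.card V) i))]
  exact ND_range _

end Pool.Agent.H33.KN
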