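import Pool.Agent.H88.KN.Targets

namespace Pool.Agent.H33.KN
open Finset Pool.Agent.H88.KN

lemma PL_agr {M : ℕ} (w w' : Fin M → Bool) : agr w w' = agr w' w := by
  unfold agr
  congr 1
  ext l
  simp only [mem_filter, mem_univ, true_and]
  exact eq_comm

lemma PL_negneg {M : ℕ} (b : ZMod (2 * M) → Bool) : neg (neg b) = b := by
  funext z
  simp [neg]

lemma PL_antiNeg {M : ℕ} {b : ZMod (2 * M) → Bool} (h : AntiZ M b) : AntiZ M (neg b) := by
  intro z
  simp only [neg, h z]

/-- PL -/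
theorem pf_PL (hPG : T_PG) (hCC : T_CC) (hEA : T_EA) : T_PL := by
  intro M _ r hr μ hμ hneg w w' h1 h2
  obtain ⟨i, hi⟩ := hCC M w' w h2 h1
  have hA : AntiZ M (ext w') := hEA M w'
  have hB : AntiZ M (ext w) := hEA M w
  have key := hPG M r hr (ext w') (neg (ext w)) hA (μ (ext w')) (μ (neg (ext w))) (hμ _ hA)
    (hμ _ (PL_antiNeg hB)) i
  have hsum : ∑ u, ∑ v, μ (neg (ext w)) u * μ (ext w') v * T M (M - r) (u - v) =
      ∑ u, ∑ v, μ (ext w) u * μ (ext w') v * T M (M - r) (u - v + (M : ZMod (2 * M))) := by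
    have h3 : ∀ u : ZMod (2 * M), μ (neg (ext w)) u = μ (ext w) (u + (M : ZMod (2 * M))) :=
      fun u => hneg _ u
    have hMM : (M : ZMod (2 * M)) + (M : ZMod (2 * M)) = 0 := by
      have := ZMod.natCast_self (2 * M)
      push_cast at this
      linear_combination this
    rw [← Equiv.sum_comp (Equiv.addRight (M : ZMod (2 * M)))]
    refine sum_congr rfl fun u _ => sum_congr rfl fun v _ => ?_
    simp only [Equiv.coe_addRight]
    rw [h3]
    have e1 : u + (M : ZMod (2 * M)) + (M : ZMod (2 * M)) = u := by rw [add_assoc, hMM, add_zero]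
    have e2 : u + (M : ZMod (2 * M)) - v = u - v + (M : ZMod (2 * M)) := by ring
    rw [e1, e2]
  rw [hsum] at key
  have hi' : (2 * (M : ℝ) - agr w' w) ≤ (wz M (ext w') i : ℝ) + wz M (neg (ext w)) i := by
    exact_mod_cast hi
  rw [PL_agr w w']
  linarith

end Pool.Agent.H33.KN
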