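import Pool.Agent.H88.KN.Targets

namespace Pool.Agent.H33.KN
open Finset Pool.Agent.H88.KN

/-- piecewise linear interpolation -/
noncomputable def XA_lam {V : Type} (H : ℕ) (ν : ℕ → V → ℝ) (t : ℝ) (v : V) : ℝ :=
  ν 0 v + ∑ i ∈ range H, (ν (i + 1) v - ν i v) * max 0 (min 1 ((H : ℝ) * t - i))

/-- piecewise linear interpolation -/
theorem pf_XA : T_XA := by
  intro V H hH ν
  have hH0 : (0 : ℝ) < H := by exact_mod_cast hH
  refine ⟨XA_lam H ν, ?_, ?_, ?_, ?_⟩
  · intro v
    unfold XA_lam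
    fun_prop
  · intro τ hτ s hs0 hs1 v
    obtain ⟨k, rfl⟩ : ∃ k, H = τ + 1 + k := ⟨H - (τ + 1), by omega⟩
    unfold XA_lam
    have e : ((τ + 1 + k : ℕ) : ℝ) * (((τ : ℝ) + s) / ((τ + 1 + k : ℕ) : ℝ)) = τ + s :=
      mul_div_cancel₀ _ hH0.ne'
    rw [e, sum_range_add _ (τ + 1) k, sum_range_succ _ τ]
    have h1 : ∑ i ∈ range τ, (ν (i + 1) v - ν i v) * max 0 (min 1 ((τ : ℝ) + s - i)) =
        ν τ v - ν 0 v := by
      rw [← sum_range_sub (fun i => ν i v) τ]
      refine sum_congr rfl fun i hi => ?_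
      have hi' : (i : ℝ) + 1 ≤ τ := by exact_mod_cast mem_range.1 hi
      rw [min_eq_left (by linarith), max_eq_right (by norm_num), mul_one]
    have h2 : ∑ i ∈ range k, (ν (τ + 1 + i + 1) v - ν (τ + 1 + i) v) *
        max 0 (min 1 ((τ : ℝ) + s - ((τ + 1 + i : ℕ) : ℝ))) = 0 := by
      refine sum_eq_zero fun i _ => ?_
      have h3 : (τ : ℝ) + s - ((τ + 1 + i : ℕ) : ℝ) ≤ 0 := by
        push_cast
        have : (0 : ℝ) ≤ i := Nat.cast_nonneg i
        linarith
      rw [max_eq_left ((min_le_right _ _).trans h3), mul_zero]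
    have h4 : max 0 (min 1 ((τ : ℝ) + s - τ)) = s := by
      have : (τ : ℝ) + s - τ = s := by ring
      rw [this, min_eq_right hs1, max_eq_right hs0]
    rw [h1, h2, h4]
    ring
  · intro t ht
    funext v
    unfold XA_lam
    congr 1
    refine sum_congr rfl fun i _ => ?_
    have h0 : (0 : ℝ) ≤ i := Nat.cast_nonneg i
    have h1 : (H : ℝ) * t - i ≤ 0 := by nlinarith
    have h2 : (H : ℝ) * 0 - i ≤ 0 := by linarith
    rw [max_eq_left ((min_le_right _ _).trans h1), max_eq_left ((min_le_right _ _).trans h2)]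
  · intro t ht
    funext v
    unfold XA_lam
    congr 1
    refine sum_congr rfl fun i hi => ?_
    have h0 : (i : ℝ) + 1 ≤ H := by exact_mod_cast mem_range.1 hi
    have h1 : 1 ≤ (H : ℝ) * t - i := by nlinarith
    have h2 : 1 ≤ (H : ℝ) * 1 - i := by linarith
    rw [min_eq_left h1, min_eq_left h2]

end Pool.Agent.H33.KN
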